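import Mathlib

/-!
# Definitions: measure algebras, Stone spaces, Grothendieck properties

Everything needed to state the question about homomorphisms of a Boolean algebra into a
measure algebra.
-/

open MeasureTheory Filter Topology

namespace Pool.Agent.Hhelper78.MP955413

universe u v

/-! ## The measure algebra of a measure -/

section MeasAlg

variable {Ω : Type v} [MeasurableSpace Ω]

/-- Two measurable sets are identified when their symmetric difference is null. -/
def aeSetoid (P : Measure Ω) : Setoid {s : Set Ω // MeasurableSet s} where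
  r s t := (s : Set Ω) =ᵐ[P] (t : Set Ω)
  iseqv := ⟨fun _ => Filter.EventuallyEq.rfl, fun h => h.symm, fun h k => h.trans k⟩

/-- The measure algebra of `P`: measurable sets modulo `P`-null sets. -/
def MeasAlg (P : Measure Ω) : Type v := Quotient (aeSetoid P)

namespace MeasAlg

variable {P : Measure Ω}

/-- The class of a measurable set. -/
def mk (P : Measure Ω) (s : {s : Set Ω // MeasurableSet s}) : MeasAlg P :=
  Quotient.mk (aeSetoid P) s

/-- The Boolean algebra structure induced by union, intersection and complement of sets. The order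
is inclusion modulo null sets. -/
instance : BooleanAlgebra (MeasAlg P) where
  le := Quotient.lift₂ (fun s t => (s : Set Ω) ≤ᵐ[P] (t : Set Ω))
    (fun _ _ _ _ h k => propext ⟨fun m => (h.symm.le.trans m).trans k.le,
      fun m => (h.le.trans m).trans k.symm.le⟩)
  le_refl := by rintro ⟨s⟩; exact Filter.EventuallyLE.refl _ _
  le_trans := by
    rintro ⟨s⟩ ⟨t⟩ ⟨w⟩ h k
    exact Filter.EventuallyLE.trans (g := (t : Set Ω)) h k
  le_antisymm := by
    rintro ⟨s⟩ ⟨t⟩ h k
    exact Quotient.sound (Filter.EventuallyLE.antisymm h k)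
  sup := Quotient.map₂ (fun s t => ⟨(s : Set Ω) ∪ t, s.2.union t.2⟩)
    (fun _ _ h _ _ k => Filter.EventuallyEq.union h k)
  inf := Quotient.map₂ (fun s t => ⟨(s : Set Ω) ∩ t, s.2.inter t.2⟩)
    (fun _ _ h _ _ k => Filter.EventuallyEq.inter h k)
  compl := Quotient.map (fun s => ⟨(s : Set Ω)ᶜ, s.2.compl⟩)
    (fun _ _ h => Filter.EventuallyEq.compl h)
  top := mk P ⟨Set.univ, MeasurableSet.univ⟩
  bot := mk P ⟨∅, MeasurableSet.empty⟩
  le_sup_left := by
    rintro ⟨s⟩ ⟨t⟩
    exact Filter.Eventually.of_forall fun x hx => Or.inl hx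
  le_sup_right := by
    rintro ⟨s⟩ ⟨t⟩
    exact Filter.Eventually.of_forall fun x hx => Or.inr hx
  sup_le := by
    rintro ⟨s⟩ ⟨t⟩ ⟨w⟩ h k
    have h' : (s : Set Ω) ≤ᵐ[P] (w : Set Ω) := h
    have k' : (t : Set Ω) ≤ᵐ[P] (w : Set Ω) := k
    show ((s : Set Ω) ∪ t : Set Ω) ≤ᵐ[P] (w : Set Ω)
    filter_upwards [h', k'] with x hx kx hxm
    rcases hxm with hxm | hxm
    · exact hx hxm
    · exact kx hxm
  inf_le_left := by
    rintro ⟨s⟩ ⟨t⟩
    exact Filter.Eventually.of_forall fun x hx => hx.1
  inf_le_right := by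
    rintro ⟨s⟩ ⟨t⟩
    exact Filter.Eventually.of_forall fun x hx => hx.2
  le_inf := by
    rintro ⟨s⟩ ⟨t⟩ ⟨w⟩ h k
    have h' : (s : Set Ω) ≤ᵐ[P] (t : Set Ω) := h
    have k' : (s : Set Ω) ≤ᵐ[P] (w : Set Ω) := k
    show (s : Set Ω) ≤ᵐ[P] ((t : Set Ω) ∩ w : Set Ω)
    filter_upwards [h', k'] with x hx kx hxm
    exact ⟨hx hxm, kx hxm⟩
  le_sup_inf := by
    rintro ⟨s⟩ ⟨t⟩ ⟨w⟩
    refine Filter.Eventually.of_forall fun x hx => ?_
    have hx' : x ∈ ((s : Set Ω) ∪ t) ∩ ((s : Set Ω) ∪ w) := hx
    show x ∈ (s : Set Ω) ∪ ((t : Set Ω) ∩ w)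
    rw [Set.union_inter_distrib_left]
    exact hx'
  le_top := by
    rintro ⟨s⟩
    exact Filter.Eventually.of_forall fun x _ => Set.mem_univ x
  bot_le := by
    rintro ⟨s⟩
    exact Filter.Eventually.of_forall fun x hx => absurd hx (Set.notMem_empty x)
  inf_compl_le_bot := by
    rintro ⟨s⟩
    exact Filter.Eventually.of_forall fun x hx => absurd hx.1 hx.2
  top_le_sup_compl := by
    rintro ⟨s⟩
    exact Filter.Eventually.of_forall fun x _ => Classical.em _

/-- The measure of an element of the measure algebra. -/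
noncomputable def mass : MeasAlg P → ℝ :=
  Quotient.lift (fun s => P.real (s : Set Ω)) (fun _ _ h => measureReal_congr h)

/-- The Frechet-Nikodym distance `P (p ∆ q)`. -/
noncomputable def dist (p q : MeasAlg P) : ℝ := mass (symmDiff p q)

end MeasAlg

end MeasAlg

/-! ## Order convergence of a sequence -/

/-- `AlgConv x y`: the sequence `x` satisfies
`⋁ₙ ⋀_{m>n} x m = ⋀ₙ ⋁_{m>n} x m = y`, all the suprema and infima existing in the order `M`. -/
def AlgConv {M : Type*} [PartialOrder M] (x : ℕ → M) (y : M) : Prop :=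
  ∃ l w : ℕ → M, (∀ n, IsGLB {z | ∃ m > n, z = x m} (l n)) ∧
    (∀ n, IsLUB {z | ∃ m > n, z = x m} (w n)) ∧
    IsLUB (Set.range l) y ∧ IsGLB (Set.range w) y

/-! ## Stone space -/

/-- The Stone space of a Boolean algebra: all Boolean homomorphisms to the two element algebra,
a subspace of the product `A → Bool`. -/
def Stone (A : Type u) [BooleanAlgebra A] : Type u :=
  {x : A → Bool // x ⊤ = true ∧ x ⊥ = false ∧
    (∀ a b, x (a ⊓ b) = (x a && x b)) ∧ (∀ a b, x (a ⊔ b) = (x a || x b))}

instance (A : Type u) [BooleanAlgebra A] : TopologicalSpace (Stone A) :=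
  inferInstanceAs (TopologicalSpace {x : A → Bool // x ⊤ = true ∧ x ⊥ = false ∧
    (∀ a b, x (a ⊓ b) = (x a && x b)) ∧ (∀ a b, x (a ⊔ b) = (x a || x b))})

instance (A : Type u) [BooleanAlgebra A] : CompactSpace (Stone A) := by
  have hc : ∀ a : A, Continuous fun x : A → Bool => x a := fun a => continuous_apply a
  have hclosed : IsClosed {x : A → Bool | x ⊤ = true ∧ x ⊥ = false ∧
      (∀ a b, x (a ⊓ b) = (x a && x b)) ∧ (∀ a b, x (a ⊔ b) = (x a || x b))} := by
    have h1 : IsClosed {x : A → Bool | ∀ a b, x (a ⊓ b) = (x a && x b)} := by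
      simp only [Set.ofPred_forall]
      refine isClosed_iInter fun a => isClosed_iInter fun b => isClosed_eq (hc _) ?_
      exact (continuous_of_discreteTopology (f := fun p : Bool × Bool => (p.1 && p.2))).comp
        ((hc a).prodMk (hc b))
    have h2 : IsClosed {x : A → Bool | ∀ a b, x (a ⊔ b) = (x a || x b)} := by
      simp only [Set.ofPred_forall]
      refine isClosed_iInter fun a => isClosed_iInter fun b => isClosed_eq (hc _) ?_
      exact (continuous_of_discreteTopology (f := fun p : Bool × Bool => (p.1 || p.2))).comp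
        ((hc a).prodMk (hc b))
    exact (isClosed_eq (hc _) continuous_const).inter
      ((isClosed_eq (hc _) continuous_const).inter (h1.inter h2))
  exact isCompact_iff_compactSpace.mp hclosed.isCompact

/-! ## Grothendieck properties -/

/-- `X` is a Grothendieck space: every weak* convergent sequence in the dual of `X` converges
weakly. -/
def GrothendieckSpace (X : Type u) [NormedAddCommGroup X] [NormedSpace ℝ X] : Prop :=
  ∀ (f : ℕ → StrongDual ℝ X) (g : StrongDual ℝ X),
    (∀ x : X, Tendsto (fun n => f n x) atTop (𝓝 (g x))) →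
    ∀ Φ : StrongDual ℝ (StrongDual ℝ X), Tendsto (fun n => Φ (f n)) atTop (𝓝 (Φ g))

/-- The same, only for sequences of positive functionals on the ordered normed space `X`. -/
def PositiveGrothendieckSpace (X : Type u) [NormedAddCommGroup X] [NormedSpace ℝ X]
    [PartialOrder X] : Prop :=
  ∀ (f : ℕ → StrongDual ℝ X) (g : StrongDual ℝ X),
    (∀ n, ∀ x : X, 0 ≤ x → 0 ≤ f n x) →
    (∀ x : X, Tendsto (fun n => f n x) atTop (𝓝 (g x))) →
    ∀ Φ : StrongDual ℝ (StrongDual ℝ X), Tendsto (fun n => Φ (f n)) atTop (𝓝 (Φ g))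

/-- `A` has the Grothendieck property: `C(Stone A)`, with the supremum norm, is a Grothendieck
space. -/
def GrothendieckProperty (A : Type u) [BooleanAlgebra A] : Prop :=
  GrothendieckSpace C(Stone A, ℝ)

/-- `A` has the positive Grothendieck property: every weak* convergent sequence of non-negative
measures on `Stone A`, that is (Riesz) of positive functionals on `C(Stone A)`, converges
weakly. -/
def PositiveGrothendieckProperty (A : Type u) [BooleanAlgebra A] : Prop :=
  PositiveGrothendieckSpace C(Stone A, ℝ)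

/-! ## The two modes of convergence of homomorphisms -/

section Conv

variable {A : Type u} [BooleanAlgebra A] {Ω : Type v} [MeasurableSpace Ω] {P : Measure Ω}

/-- Pointwise algebraic convergence of a sequence of Boolean homomorphisms. -/
def PointwiseAlgConv (φ : ℕ → BoundedLatticeHom A (MeasAlg P))
    (ψ : BoundedLatticeHom A (MeasAlg P)) : Prop :=
  ∀ a : A, AlgConv (fun n => φ n a) (ψ a)

/-- Uniform convergence: `sup_{a ∈ A} P (φ n a ∆ ψ a) → 0`. -/
def UniformConv (φ : ℕ → BoundedLatticeHom A (MeasAlg P))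
    (ψ : BoundedLatticeHom A (MeasAlg P)) : Prop :=
  Tendsto (fun n => ⨆ a : A, MeasAlg.dist (φ n a) (ψ a)) atTop (𝓝 0)

end Conv

end Pool.Agent.Hhelper78.MP955413
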