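import Pool.Agent.Hhelper78.MP955413.Main

/-!
# Mixing homomorphisms and the final contradiction
-/

open MeasureTheory Filter Topology

namespace Pool.Agent.Hhelper78.MP955413

universe u v

section Pieces

variable {Ω : Type v} [MeasurableSpace Ω] {P : Measure Ω}

/-- The first-hit pieces of a sequence of sets. -/
def piece (f : ℕ → Set Ω) (i : ℕ) : Set Ω := f i \ ⋃ j ∈ Finset.range i, f j

lemma measurableSet_piece {f : ℕ → Set Ω} (hf : ∀ i, MeasurableSet (f i)) (i : ℕ) :
    MeasurableSet (piece f i) :=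
  (hf i).diff (Finset.measurableSet_biUnion _ fun j _ => hf j)

omit [MeasurableSpace Ω] in
lemma piece_disjoint (f : ℕ → Set Ω) {i j : ℕ} (h : i < j) : Disjoint (piece f i) (piece f j) := by
  rw [Set.disjoint_left]
  intro r hi hj
  exact hj.2 (Set.mem_iUnion₂.mpr ⟨i, Finset.mem_range.mpr h, hi.1⟩)

omit [MeasurableSpace Ω] in
lemma piece_pairwise (f : ℕ → Set Ω) {i j : ℕ} (h : i ≠ j) : Disjoint (piece f i) (piece f j) := by
  rcases lt_or_gt_of_ne h with h | h
  · exact piece_disjoint f h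
  · exact (piece_disjoint f h).symm

omit [MeasurableSpace Ω] in
lemma biUnion_piece (f : ℕ → Set Ω) (L : ℕ) :
    ⋃ i ∈ Finset.range L, piece f i = ⋃ i ∈ Finset.range L, f i := by
  classical
  apply subset_antisymm
  · exact Set.iUnion₂_mono fun i _ => Set.sdiff_subset
  · intro r hr
    obtain ⟨i, hi, hri⟩ := Set.mem_iUnion₂.mp hr
    have hex : ∃ i, r ∈ f i := ⟨i, hri⟩
    refine Set.mem_iUnion₂.mpr ⟨Nat.find hex, ?_, Nat.find_spec hex, ?_⟩
    · exact Finset.mem_range.mpr (lt_of_le_of_lt (Nat.find_min' hex hri) (Finset.mem_range.mp hi))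
    · intro hcon
      obtain ⟨j, hj, hrj⟩ := Set.mem_iUnion₂.mp hcon
      exact Nat.find_min hex (Finset.mem_range.mp hj) hrj

lemma sum_piece [IsFiniteMeasure P] {f : ℕ → Set Ω} (hf : ∀ i, MeasurableSet (f i)) (L : ℕ)
    {X : Set Ω} (hX : MeasurableSet X) :
    P.real X = ∑ i ∈ Finset.range L, P.real (piece f i ∩ X) +
      P.real ((⋃ i ∈ Finset.range L, f i)ᶜ ∩ X) := by
  have hU : MeasurableSet (⋃ i ∈ Finset.range L, f i) :=
    Finset.measurableSet_biUnion _ fun j _ => hf j
  have h1 : ∑ i ∈ Finset.range L, P.real (piece f i ∩ X) =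
      P.real ((⋃ i ∈ Finset.range L, f i) ∩ X) := by
    rw [← biUnion_piece, Set.iUnion₂_inter, measureReal_biUnion_finset]
    · intro i _ j _ hij
      exact (piece_pairwise f hij).mono Set.inter_subset_left Set.inter_subset_left
    · exact fun i _ => (measurableSet_piece hf i).inter hX
  rw [h1, ← measureReal_union _ (hU.compl.inter hX)]
  · rw [← Set.union_inter_distrib_right, Set.union_compl_self, Set.univ_inter]
  · rw [Set.disjoint_left]
    intro r h1 h2
    exact h2.1 h1.1

end Pieces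

variable {A : Type u} [BooleanAlgebra A] {Ω : Type v} [MeasurableSpace Ω] {P : Measure Ω}

lemma hom_add [IsFiniteMeasure P] (θ : BoundedLatticeHom A (MeasAlg P)) (W : Set Ω)
    (hW : MeasurableSet W) {a b : A} (hab : Disjoint a b) :
    P.real (W ∩ rep (θ (a ⊔ b))) = P.real (W ∩ rep (θ a)) + P.real (W ∩ rep (θ b)) := by
  have h1 : ∀ᵐ r ∂P, r ∉ rep (θ (a ⊓ b)) := by
    rw [hab.eq_bot, BotHomClass.map_bot]
    exact rep_bot
  have h2 : P.real (W ∩ rep (θ (a ⊔ b))) = P.real ((W ∩ rep (θ a)) ∪ (W ∩ rep (θ b))) := by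
    apply measureReal_congr
    apply Filter.Eventually.set_eq
    filter_upwards [rep_sup (θ a) (θ b)] with r hr
    rw [SupHomClass.map_sup]
    simp only [Set.mem_inter_iff, Set.mem_union, hr]
    tauto
  rw [h2]
  refine measureReal_union₀ (hW.inter (measurableSet_rep _)).nullMeasurableSet ?_
  show P ((W ∩ rep (θ a)) ∩ (W ∩ rep (θ b))) = 0
  rw [measure_eq_zero_iff_ae_notMem]
  filter_upwards [h1, rep_inf (θ a) (θ b)] with r h1 h2 hr
  rw [InfHomClass.map_inf, h2] at h1
  exact h1 ⟨hr.1.2, hr.2.2⟩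

/-- The law of the mixed homomorphism: follow `φ (n i)` on the set where `i < L` is least with
`r ∈ φ (n i) B`, and follow `ψ` if there is no such `i`. -/
noncomputable def mix (P : Measure Ω) (φ : ℕ → BoundedLatticeHom A (MeasAlg P))
    (ψ : BoundedLatticeHom A (MeasAlg P)) (n : ℕ → ℕ) (L : ℕ) (B : A) (a : A) : ℝ :=
  ∑ i ∈ Finset.range L, P.real (piece (fun i => rep (φ (n i) B)) i ∩ rep (φ (n i) a)) +
    P.real ((⋃ i ∈ Finset.range L, rep (φ (n i) B))ᶜ ∩ rep (ψ a))

lemma mix_isFinAdd [IsFiniteMeasure P] (φ : ℕ → BoundedLatticeHom A (MeasAlg P))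
    (ψ : BoundedLatticeHom A (MeasAlg P)) (n : ℕ → ℕ) (L : ℕ) (B : A) :
    IsFinAdd (mix P φ ψ n L B) := by
  constructor
  · intro a
    exact add_nonneg (Finset.sum_nonneg fun _ _ => measureReal_nonneg) measureReal_nonneg
  · intro a b hab
    unfold mix
    have hm : ∀ i, MeasurableSet (piece (fun i => rep (φ (n i) B)) i) := fun i =>
      measurableSet_piece (fun i => measurableSet_rep _) i
    have hU : MeasurableSet (⋃ i ∈ Finset.range L, rep (φ (n i) B)) :=
      Finset.measurableSet_biUnion _ fun j _ => measurableSet_rep _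
    rw [hom_add ψ _ hU.compl hab, Finset.sum_congr rfl fun i _ => hom_add (φ (n i)) _ (hm i) hab,
      Finset.sum_add_distrib]
    ring

lemma mix_lower [IsFiniteMeasure P] (φ : ℕ → BoundedLatticeHom A (MeasAlg P))
    (ψ : BoundedLatticeHom A (MeasAlg P)) (n : ℕ → ℕ) (L : ℕ) (B : A) :
    P.real (⋃ i ∈ Finset.range L, rep (φ (n i) B)) ≤ mix P φ ψ n L B B := by
  unfold mix
  have h1 : ∀ i, piece (fun i => rep (φ (n i) B)) i ∩ rep (φ (n i) B) =
      piece (fun i => rep (φ (n i) B)) i := fun i =>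
    Set.inter_eq_left.mpr Set.sdiff_subset
  simp only [h1]
  have h2 : P.real (⋃ i ∈ Finset.range L, rep (φ (n i) B)) =
      ∑ i ∈ Finset.range L, P.real (piece (fun i => rep (φ (n i) B)) i) := by
    rw [← biUnion_piece (fun i => rep (φ (n i) B)), measureReal_biUnion_finset]
    · intro i _ j _ hij
      exact piece_pairwise _ hij
    · exact fun i _ => measurableSet_piece (fun i => measurableSet_rep _) i
  rw [h2]
  linarith [measureReal_nonneg (μ := P) (s := (⋃ i ∈ Finset.range L, rep (φ (n i) B))ᶜ ∩ rep (ψ B))]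

lemma mix_dist [IsFiniteMeasure P] (φ : ℕ → BoundedLatticeHom A (MeasAlg P))
    (ψ : BoundedLatticeHom A (MeasAlg P)) (n : ℕ → ℕ) (L : ℕ) (B : A) (N : ℕ)
    (hn : ∀ i, N ≤ n i) (a : A) :
    |mix P φ ψ n L B a - P.real (rep (ψ a))| ≤ P.real (tail (fun m => φ m a) (ψ a) N) := by
  set f : ℕ → Set Ω := fun i => rep (φ (n i) B) with hf
  have hfm : ∀ i, MeasurableSet (f i) := fun i => measurableSet_rep _
  have e1 := sum_piece (P := P) hfm L (measurableSet_rep (ψ a))
  have e2 := sum_piece (P := P) hfm L (measurableSet_tail (fun m => φ m a) (ψ a) N)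
  have e3 : mix P φ ψ n L B a - P.real (rep (ψ a)) = ∑ i ∈ Finset.range L,
      (P.real (piece f i ∩ rep (φ (n i) a)) - P.real (piece f i ∩ rep (ψ a))) := by
    rw [Finset.sum_sub_distrib]
    unfold mix
    linarith
  rw [e3]
  refine (Finset.abs_sum_le_sum_abs _ _).trans ?_
  have h1 : ∀ i ∈ Finset.range L, |P.real (piece f i ∩ rep (φ (n i) a)) -
      P.real (piece f i ∩ rep (ψ a))| ≤
      P.real (piece f i ∩ tail (fun m => φ m a) (ψ a) N) := by
    intro i _
    have hsub : symm (φ (n i) a) (ψ a) ⊆ tail (fun m => φ m a) (ψ a) N :=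
      Set.subset_iUnion₂ (s := fun m _ => symm (φ m a) (ψ a)) (n i) (hn i)
    have k1 : P.real (piece f i ∩ rep (φ (n i) a)) ≤ P.real (piece f i ∩ rep (ψ a)) +
        P.real (piece f i ∩ tail (fun m => φ m a) (ψ a) N) := by
      refine (measureReal_mono (s₂ := (piece f i ∩ rep (ψ a)) ∪
        (piece f i ∩ tail (fun m => φ m a) (ψ a) N)) ?_).trans (measureReal_union_le _ _)
      rintro r ⟨hr1, hr2⟩
      by_cases hr : r ∈ rep (ψ a)
      · exact Or.inl ⟨hr1, hr⟩
      · exact Or.inr ⟨hr1, hsub fun hcon => hr (hcon.mp hr2)⟩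
    have k2 : P.real (piece f i ∩ rep (ψ a)) ≤ P.real (piece f i ∩ rep (φ (n i) a)) +
        P.real (piece f i ∩ tail (fun m => φ m a) (ψ a) N) := by
      refine (measureReal_mono (s₂ := (piece f i ∩ rep (φ (n i) a)) ∪
        (piece f i ∩ tail (fun m => φ m a) (ψ a) N)) ?_).trans (measureReal_union_le _ _)
      rintro r ⟨hr1, hr2⟩
      by_cases hr : r ∈ rep (φ (n i) a)
      · exact Or.inl ⟨hr1, hr⟩
      · exact Or.inr ⟨hr1, hsub fun hcon => hr (hcon.mpr hr2)⟩
    rw [abs_le]
    constructor <;> linarith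
  refine (Finset.sum_le_sum h1).trans ?_
  rw [e2]
  linarith [measureReal_nonneg (μ := P) (s := (⋃ i ∈ Finset.range L, f i)ᶜ ∩
    tail (fun m => φ m a) (ψ a) N)]

/-- Main theorem. -/
theorem uniformConv_of_positiveGrothendieck (hA : PositiveGrothendieckProperty A)
    [IsProbabilityMeasure P] (φ : ℕ → BoundedLatticeHom A (MeasAlg P))
    (ψ : BoundedLatticeHom A (MeasAlg P)) (hconv : PointwiseAlgConv φ ψ) :
    UniformConv φ ψ := by
  classical
  by_contra hnot
  have hdist : ∀ p q : MeasAlg P, MeasAlg.dist p q ≤ 1 := fun p q => by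
    rw [dist_eq]; exact measureReal_le_one
  have hdist0 : ∀ p q : MeasAlg P, 0 ≤ MeasAlg.dist p q := fun p q => by
    rw [dist_eq]; exact measureReal_nonneg
  have hbdd : ∀ n, BddAbove (Set.range fun a : A => MeasAlg.dist (φ n a) (ψ a)) := fun n =>
    ⟨1, by rintro _ ⟨a, rfl⟩; exact hdist _ _⟩
  -- failure of uniform convergence
  obtain ⟨ε, hε, hfreq⟩ : ∃ ε : ℝ, 0 < ε ∧
      ∀ N, ∃ n ≥ N, ∃ a, ε ≤ P.real (symm (φ n a) (ψ a)) := by
    unfold UniformConv at hnot
    rw [Metric.tendsto_atTop] at hnot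
    push Not at hnot
    obtain ⟨ε, hε, h⟩ := hnot
    refine ⟨ε / 2, by positivity, fun N => ?_⟩
    obtain ⟨n, hn, h2⟩ := h N
    refine ⟨n, hn, ?_⟩
    rw [Real.dist_eq, sub_zero, abs_of_nonneg (Real.iSup_nonneg fun a => hdist0 _ _)] at h2
    obtain ⟨a, ha⟩ := exists_lt_of_lt_ciSup (lt_of_lt_of_le (half_lt_self hε) h2)
    exact ⟨a, by rw [← dist_eq]; exact ha.le⟩
  -- small sets
  set c : ℝ := ε / 8 with hc
  have hcpos : 0 < c := by positivity
  have hsmall := fun k : ℕ => exists_small φ ψ hconv hε hfreq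
    (δ := c / 4 * (1 / 2) ^ k) (by positivity) k
  choose B L n hn hB hBU using hsmall
  -- functionals
  have hfun := fun k => exists_functional (mix P φ ψ (n k) (L k) (B k)) (mix_isFinAdd φ ψ _ _ _)
  choose F hF1 hF2 hF3 using hfun
  have hψadd : IsFinAdd (fun a => P.real (rep (ψ a))) := by
    refine ⟨fun a => measureReal_nonneg, fun a b hab => ?_⟩
    have := hom_add ψ Set.univ MeasurableSet.univ hab
    simpa only [Set.univ_inter] using this
  obtain ⟨G, hG1, hG2, hG3⟩ := exists_functional _ hψadd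
  have hFb : ∀ k, ‖F k‖ ≤ 2 := by
    intro k
    refine (hF1 k).trans ?_
    have h1 := mix_dist φ ψ (n k) (L k) (B k) k (hn k) ⊤
    have h2 : P.real (rep (ψ ⊤)) ≤ 1 := measureReal_le_one
    have h3 : P.real (tail (fun m => φ m ⊤) (ψ ⊤) k) ≤ 1 := measureReal_le_one
    have h4 := (abs_le.mp h1).2
    linarith
  have hweakstar : ∀ h : C(Stone A, ℝ), Tendsto (fun k => F k h) atTop (𝓝 (G h)) := by
    refine tendsto_of_ind F G 2 hFb fun a => ?_
    simp only [hF3, hG3]
    rw [tendsto_iff_dist_tendsto_zero]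
    refine squeeze_zero (fun _ => dist_nonneg) (fun k => ?_) (hconv a).tendsto_tail
    rw [Real.dist_eq]
    exact mix_dist φ ψ (n k) (L k) (B k) k (hn k) a
  -- the separating bidual element
  let E : ℕ → A := fun j => (Finset.range (j + 1)).sup B
  obtain ⟨Φ, hΦ⟩ := exists_bidual (fun j => ind (E j)) (fun j => norm_ind_le _)
  have hweak := hA F G hF2 hweakstar Φ
  have hlow : ∀ k, c ≤ Φ (F k) := by
    intro k
    refine (hΦ (F k) c).1 ?_
    filter_upwards [eventually_ge_atTop k] with j hj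
    have hle : B k ≤ E j := Finset.le_sup (f := B) (Finset.mem_range.mpr (Nat.lt_succ_of_le hj))
    calc c ≤ P.real (⋃ i ∈ Finset.range (L k), rep (φ (n k i) (B k))) := hBU k
      _ ≤ mix P φ ψ (n k) (L k) (B k) (B k) := mix_lower φ ψ _ _ _
      _ = F k (ind (B k)) := (hF3 k (B k)).symm
      _ ≤ F k (ind (E j)) := pos_mono (hF2 k) (ind_mono hle)
  have hup : Φ G ≤ c / 2 := by
    refine (hΦ G (c / 2)).2 (Filter.Eventually.of_forall fun j => ?_)
    rw [hG3]
    have h1 : ∀ m, P.real (rep (ψ ((Finset.range m).sup B))) ≤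
        ∑ k ∈ Finset.range m, c / 4 * (1 / 2) ^ k := by
      intro m
      induction m with
      | zero => simpa using hψadd.bot.le
      | succ m ih =>
        rw [Finset.range_add_one, Finset.sup_insert, Finset.sum_insert Finset.notMem_range_self]
        have h2 : P.real (rep (ψ (B m ⊔ (Finset.range m).sup B))) ≤
            P.real (rep (ψ (B m))) + P.real (rep (ψ ((Finset.range m).sup B))) := by
          have h3 : P.real (rep (ψ (B m ⊔ (Finset.range m).sup B))) =
              P.real (rep (ψ (B m)) ∪ rep (ψ ((Finset.range m).sup B))) := by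
            apply measureReal_congr
            apply Filter.Eventually.set_eq
            filter_upwards [rep_sup (ψ (B m)) (ψ ((Finset.range m).sup B))] with r hr
            rw [SupHomClass.map_sup]
            exact hr
          rw [h3]
          exact measureReal_union_le _ _
        have h4 := (hB m).le
        linarith
    refine (h1 (j + 1)).trans ?_
    rw [← Finset.mul_sum, geom_sum_eq (by norm_num)]
    have h5 : (0 : ℝ) < (1 / 2) ^ (j + 1) := by positivity
    have h6 : ((1 / 2 : ℝ) ^ (j + 1) - 1) / (1 / 2 - 1) = 2 * (1 - (1 / 2) ^ (j + 1)) := by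
      rw [div_eq_iff (by norm_num)]; ring
    rw [h6]
    nlinarith
  have := ge_of_tendsto' hweak hlow
  linarith

end Pool.Agent.Hhelper78.MP955413
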