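import Pool.Agent.Hhelper78.MP955413.Defs

/-!
# Functional analysis on `C(Stone A, ℝ)`
-/

open MeasureTheory Filter Topology

namespace Pool.Agent.Hhelper78.MP955413

universe u v

/-! ## Generic facts about the dual of a normed space -/

section Generic

variable {X : Type u} [NormedAddCommGroup X] [NormedSpace ℝ X]

/-- Boundedness plus convergence on a set with dense span gives weak* convergence. -/
lemma tendsto_of_dense_span (S : Set X)
    (hS : ∀ h : X, ∀ ε : ℝ, 0 < ε → ∃ s ∈ Submodule.span ℝ S, ‖h - s‖ < ε)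
    (f : ℕ → StrongDual ℝ X) (g : StrongDual ℝ X)
    (C : ℝ) (hb : ∀ n, ‖f n‖ ≤ C)
    (hf : ∀ a ∈ S, Tendsto (fun n => f n a) atTop (𝓝 (g a))) (h : X) :
    Tendsto (fun n => f n h) atTop (𝓝 (g h)) := by
  have hC : 0 ≤ C := le_trans (norm_nonneg _) (hb 0)
  have hspan : ∀ s ∈ Submodule.span ℝ S, Tendsto (fun n => f n s) atTop (𝓝 (g s)) := by
    intro s hs
    induction hs using Submodule.span_induction with
    | mem x hx => exact hf x hx
    | zero => simp
    | add x y _ _ hx hy => simpa using hx.add hy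
    | smul c x _ hx => simpa using hx.const_mul c
  rw [Metric.tendsto_atTop]
  intro ε hε
  set δ := ε / (3 * (C + ‖g‖ + 1)) with hδ
  have hpos : 0 < 3 * (C + ‖g‖ + 1) := by positivity
  have hδpos : 0 < δ := div_pos hε hpos
  obtain ⟨s, hs, hd⟩ := hS h δ hδpos
  obtain ⟨N, hN⟩ := (Metric.tendsto_atTop.mp (hspan s hs)) (ε / 3) (by positivity)
  refine ⟨N, fun n hn => ?_⟩
  have h1 : |f n (h - s)| ≤ C * δ := by
    calc |f n (h - s)| ≤ ‖f n‖ * ‖h - s‖ := (f n).le_opNorm _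
      _ ≤ C * δ := by gcongr; exact hb n
  have h2 : |g (h - s)| ≤ ‖g‖ * δ := by
    calc |g (h - s)| ≤ ‖g‖ * ‖h - s‖ := g.le_opNorm _
      _ ≤ ‖g‖ * δ := by gcongr
  have h3 : |f n s - g s| < ε / 3 := by
    have := hN n hn
    rwa [Real.dist_eq] at this
  have h4 : f n h - g h = f n (h - s) + (f n s - g s) - g (h - s) := by
    simp only [map_sub]; ring
  rw [Real.dist_eq, h4]
  have h5 : (C + ‖g‖) * δ ≤ ε / 3 := by
    rw [hδ, mul_div_assoc', div_le_div_iff₀ hpos (by norm_num)]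
    nlinarith [norm_nonneg g]
  have h6 := abs_sub (f n (h - s) + (f n s - g s)) (g (h - s))
  have h7 := abs_add_le (f n (h - s)) (f n s - g s)
  nlinarith

/-- A compactness principle for functionals satisfying inequalities `0 ≤ L x` and
equalities `L y = m y`. -/
lemma exists_dual_of_finite (C : ℝ) (Q : Set X) {ι : Type*} (e : ι → X) (m : ι → ℝ)
    (hfin : ∀ F : Finset ι, ∃ L : StrongDual ℝ X, ‖L‖ ≤ C ∧ (∀ x ∈ Q, 0 ≤ L x) ∧
      ∀ i ∈ F, L (e i) = m i) :
    ∃ L : StrongDual ℝ X, ‖L‖ ≤ C ∧ (∀ x ∈ Q, 0 ≤ L x) ∧ ∀ i, L (e i) = m i := by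
  classical
  let S : Set (WeakDual ℝ X) := (WeakDual.toStrongDual ⁻¹' Metric.closedBall 0 C)
  let Q' : Set (WeakDual ℝ X) := {L | ∀ h ∈ Q, 0 ≤ L h}
  have hQ : IsClosed Q' := by
    have : Q' = ⋂ (h : X) (_ : h ∈ Q), {L : WeakDual ℝ X | 0 ≤ L h} := by
      ext L; simp [Q']
    rw [this]
    exact isClosed_iInter fun h => isClosed_iInter fun _ =>
      isClosed_le continuous_const (WeakDual.eval_continuous h)
  have hS : IsCompact (S ∩ Q') := (WeakDual.isCompact_closedBall 0 C).inter_right hQ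
  let t : ι → Set (WeakDual ℝ X) := fun a => {L | L (e a) = m a}
  have ht : ∀ a, IsClosed (t a) := fun a =>
    isClosed_eq (WeakDual.eval_continuous (e a)) continuous_const
  have hfin' : ∀ F : Finset ι, ((S ∩ Q') ∩ ⋂ a ∈ F, t a).Nonempty := by
    intro F
    obtain ⟨L, h1, hp, hF⟩ := hfin F
    refine ⟨StrongDual.toWeakDual L, ⟨?_, ?_⟩, ?_⟩
    · show L ∈ Metric.closedBall (0 : StrongDual ℝ X) C
      rw [mem_closedBall_zero_iff]
      exact h1
    · exact hp
    · simp only [Set.mem_iInter]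
      exact hF
  obtain ⟨L, ⟨hLS, hLQ⟩, hLt⟩ := hS.inter_iInter_nonempty t ht hfin'
  refine ⟨WeakDual.toStrongDual L, ?_, hLQ, ?_⟩
  · have : WeakDual.toStrongDual L ∈ Metric.closedBall (0 : StrongDual ℝ X) C := hLS
    rwa [mem_closedBall_zero_iff] at this
  · intro a
    exact Set.mem_iInter.mp hLt a

/-- A bidual element that computes limits along a bounded sequence. -/
lemma exists_bidual (E : ℕ → X) (hE : ∀ n, ‖E n‖ ≤ 1) :
    ∃ Φ : StrongDual ℝ (StrongDual ℝ X), ∀ (L : StrongDual ℝ X) (c : ℝ),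
      ((∀ᶠ j in atTop, c ≤ L (E j)) → c ≤ Φ L) ∧
      ((∀ᶠ j in atTop, L (E j) ≤ c) → Φ L ≤ c) := by
  let J : ℕ → WeakDual ℝ (StrongDual ℝ X) := fun j =>
    StrongDual.toWeakDual (NormedSpace.inclusionInDoubleDual ℝ _ (E j))
  let S : Set (WeakDual ℝ (StrongDual ℝ X)) :=
    (WeakDual.toStrongDual ⁻¹' Metric.closedBall 0 1)
  have hS : IsCompact S := WeakDual.isCompact_closedBall 0 1
  have hJ : ∀ j, J j ∈ S := by
    intro j
    have h1 : ‖NormedSpace.inclusionInDoubleDual ℝ X (E j)‖ ≤ 1 :=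
      (NormedSpace.double_dual_bound ℝ _ _).trans (hE _)
    exact (mem_closedBall_zero_iff (E := StrongDual ℝ (StrongDual ℝ X))).mpr h1
  have hle : ((Ultrafilter.map J (hyperfilter ℕ) : Ultrafilter _) : Filter _) ≤ 𝓟 S := by
    rw [le_principal_iff, Ultrafilter.coe_map]
    exact Filter.mem_map.mpr (Filter.univ_mem' hJ)
  obtain ⟨Φ, -, hΦ⟩ := hS.ultrafilter_le_nhds _ hle
  have hev : ∀ L : StrongDual ℝ X,
      Tendsto (fun j => L (E j)) (hyperfilter ℕ : Filter ℕ) (𝓝 (Φ L)) := by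
    intro L
    have h1 : Tendsto J (hyperfilter ℕ : Filter ℕ) (𝓝 Φ) := hΦ
    exact ((WeakDual.eval_continuous L).tendsto Φ).comp h1
  refine ⟨WeakDual.toStrongDual Φ, fun L c => ⟨fun h => ?_, fun h => ?_⟩⟩
  · have h' : ∀ᶠ j in (hyperfilter ℕ : Filter ℕ), c ≤ L (E j) :=
      h.filter_mono (Nat.hyperfilter_le_atTop)
    exact ge_of_tendsto (hev L) h'
  · have h' : ∀ᶠ j in (hyperfilter ℕ : Filter ℕ), L (E j) ≤ c :=
      h.filter_mono (Nat.hyperfilter_le_atTop)
    exact le_of_tendsto (hev L) h'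

end Generic

/-! ## The Stone space -/

variable {A : Type u} [BooleanAlgebra A]

lemma Stone.continuous_eval (a : A) : Continuous (fun x : Stone A => x.1 a) :=
  (continuous_apply a).comp continuous_subtype_val

/-- The indicator function of the clopen set given by `a`. -/
noncomputable def ind (a : A) : C(Stone A, ℝ) :=
  ⟨fun x => if x.1 a then 1 else 0,
    (continuous_of_discreteTopology (f := fun b : Bool => if b then (1 : ℝ) else 0)).comp
      (Stone.continuous_eval a)⟩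

lemma ind_apply (a : A) (x : Stone A) : ind a x = if x.1 a then 1 else 0 := rfl

lemma Stone.compl_apply (x : Stone A) (a : A) : x.1 aᶜ = !x.1 a := by
  have h1 := x.2.2.2.1 a aᶜ
  have h2 := x.2.2.2.2 a aᶜ
  rw [inf_compl_eq_bot, x.2.2.1] at h1
  rw [sup_compl_eq_top, x.2.1] at h2
  revert h1 h2
  cases x.1 a <;> cases x.1 aᶜ <;> simp

lemma ind_nonneg (a : A) : 0 ≤ ind a := by
  intro x
  show (0 : ℝ) ≤ ind a x
  rw [ind_apply]
  split_ifs <;> norm_num

lemma ind_top : ind (⊤ : A) = 1 := by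
  ext x
  simp [ind_apply, x.2.1]

lemma ind_bot : ind (⊥ : A) = 0 := by
  ext x
  simp [ind_apply, x.2.2.1]

lemma ind_inf (a b : A) : ind (a ⊓ b) = ind a * ind b := by
  ext x
  simp only [ind_apply, x.2.2.2.1, ContinuousMap.mul_apply]
  cases x.1 a <;> cases x.1 b <;> simp

lemma ind_compl (a : A) : ind aᶜ = 1 - ind a := by
  ext x
  simp only [ind_apply, Stone.compl_apply, ContinuousMap.sub_apply, ContinuousMap.one_apply]
  cases x.1 a <;> simp

lemma ind_mono {a b : A} (h : a ≤ b) : ind a ≤ ind b := by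
  intro x
  have h1 := x.2.2.2.1 a b
  rw [inf_eq_left.mpr h] at h1
  show ind a x ≤ ind b x
  rw [ind_apply, ind_apply]
  revert h1
  cases x.1 a <;> cases x.1 b <;> simp

lemma ind_le_one (a : A) : ind a ≤ 1 := by
  rw [← ind_top]; exact ind_mono le_top

lemma norm_ind_le (a : A) : ‖ind a‖ ≤ 1 := by
  rw [ContinuousMap.norm_le _ zero_le_one]
  intro x
  simp only [ind_apply]
  split_ifs <;> simp

/-- Linear combinations of indicators are dense. -/
lemma exists_approx (h : C(Stone A, ℝ)) {ε : ℝ} (hε : 0 < ε) :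
    ∃ s ∈ Submodule.span ℝ (Set.range (ind : A → C(Stone A, ℝ))), ‖h - s‖ < ε := by
  classical
  let M : Submonoid C(Stone A, ℝ) :=
    { carrier := Set.range ind
      mul_mem' := by
        rintro _ _ ⟨a, rfl⟩ ⟨b, rfl⟩
        exact ⟨a ⊓ b, ind_inf a b⟩
      one_mem' := ⟨⊤, ind_top⟩ }
  have hM : Submonoid.closure (Set.range (ind : A → C(Stone A, ℝ))) = M :=
    Submonoid.closure_eq M
  have hadj := Algebra.adjoin_eq_span ℝ (Set.range (ind : A → C(Stone A, ℝ)))
  rw [hM] at hadj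
  have hsep : (Algebra.adjoin ℝ (Set.range (ind : A → C(Stone A, ℝ)))).SeparatesPoints := by
    intro x y hxy
    have : ∃ a, x.1 a ≠ y.1 a := by
      by_contra hcon
      push Not at hcon
      exact hxy (Subtype.ext (funext hcon))
    obtain ⟨a, ha⟩ := this
    refine ⟨ind a, ⟨ind a, Algebra.subset_adjoin ⟨a, rfl⟩, rfl⟩, ?_⟩
    simp only [ind_apply]
    cases hx : x.1 a <;> cases hy : y.1 a <;> simp_all
  have hdense := ContinuousMap.subalgebra_topologicalClosure_eq_top_of_separatesPoints _ hsep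
  have hmem : h ∈ (Algebra.adjoin ℝ (Set.range (ind : A → C(Stone A, ℝ)))).topologicalClosure := by
    rw [hdense]; trivial
  have hmem' : h ∈ closure ((Algebra.adjoin ℝ (Set.range (ind : A → C(Stone A, ℝ))) :
      Subalgebra ℝ C(Stone A, ℝ)) : Set C(Stone A, ℝ)) := hmem
  obtain ⟨s, hs, hd⟩ := Metric.mem_closure_iff.mp hmem' ε hε
  refine ⟨s, ?_, ?_⟩
  · have : s ∈ (Subalgebra.toSubmodule (Algebra.adjoin ℝ (Set.range (ind : A → C(Stone A, ℝ))))) := hs
    rw [hadj] at this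
    exact this
  · rwa [dist_eq_norm] at hd

/-- Pointwise convergence on indicators plus boundedness gives weak* convergence. -/
lemma tendsto_of_ind (f : ℕ → StrongDual ℝ C(Stone A, ℝ)) (g : StrongDual ℝ C(Stone A, ℝ))
    (C : ℝ) (hb : ∀ n, ‖f n‖ ≤ C)
    (hf : ∀ a, Tendsto (fun n => f n (ind a)) atTop (𝓝 (g (ind a)))) (h : C(Stone A, ℝ)) :
    Tendsto (fun n => f n h) atTop (𝓝 (g h)) := by
  refine tendsto_of_dense_span (Set.range ind) (fun h ε hε => exists_approx h hε) f g C hb ?_ h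
  rintro _ ⟨a, rfl⟩
  exact hf a

/-- A nonzero element of a Boolean algebra belongs to some ultrafilter. -/
lemma exists_point (c : A) (hc : c ≠ ⊥) : ∃ x : Stone A, x.1 c = true := by
  classical
  have hdis : Disjoint ((Order.PFilter.principal c : Order.PFilter A) : Set A)
      ((Order.Ideal.principal (⊥ : A)) : Set A) := by
    rw [Set.disjoint_left]
    intro z hz hz'
    have h1 : c ≤ z := hz
    have h2 : z ≤ ⊥ := hz'
    exact hc (le_bot_iff.mp (h1.trans h2))
  obtain ⟨J, hJ, -, hdisJ⟩ := DistribLattice.prime_ideal_of_disjoint_filter_ideal hdis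
  have hcJ : c ∉ J := fun h => Set.disjoint_left.mp hdisJ (show c ≤ c from le_rfl) h
  have htop : (⊤ : A) ∉ J := fun h => hcJ (J.lower le_top h)
  refine ⟨⟨fun a => decide (a ∉ J), ?_, ?_, ?_, ?_⟩, ?_⟩
  · simpa using htop
  · simp
  · intro a b
    have : a ⊓ b ∈ J ↔ a ∈ J ∨ b ∈ J := by
      constructor
      · exact fun h => hJ.mem_or_mem h
      · rintro (h | h)
        · exact J.lower inf_le_left h
        · exact J.lower inf_le_right h
    by_cases ha : a ∈ J <;> by_cases hb : b ∈ J <;> simp [this, ha, hb]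
  · intro a b
    have : a ⊔ b ∈ J ↔ a ∈ J ∧ b ∈ J := Order.Ideal.sup_mem_iff
    by_cases ha : a ∈ J <;> by_cases hb : b ∈ J <;> simp [this, ha, hb]
  · simpa using hcJ

/-- evaluation functional -/
noncomputable def evalAt (x : Stone A) : StrongDual ℝ C(Stone A, ℝ) :=
  ContinuousMap.evalCLM ℝ x

lemma evalAt_apply (x : Stone A) (h : C(Stone A, ℝ)) : evalAt x h = h x := rfl

/-- A non-negative finitely additive function on `A`. -/
structure IsFinAdd (m : A → ℝ) : Prop where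
  nonneg : ∀ a, 0 ≤ m a
  add : ∀ a b, Disjoint a b → m (a ⊔ b) = m a + m b

lemma IsFinAdd.bot {m : A → ℝ} (hm : IsFinAdd m) : m ⊥ = 0 := by
  have := hm.add ⊥ ⊥ disjoint_bot_left
  simp at this
  exact this

lemma IsFinAdd.mono {m : A → ℝ} (hm : IsFinAdd m) {a b : A} (h : a ≤ b) : m a ≤ m b := by
  have h1 := hm.add a (b \ a) disjoint_sdiff_self_right
  rw [sup_sdiff_cancel_right h] at h1
  linarith [hm.nonneg (b \ a)]

lemma IsFinAdd.split {m : A → ℝ} (hm : IsFinAdd m) (a b : A) : m a = m (a ⊓ b) + m (a ⊓ bᶜ) := by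
  rw [← hm.add (a ⊓ b) (a ⊓ bᶜ) ?_]
  · rw [← inf_sup_left, sup_compl_eq_top, inf_top_eq]
  · exact (disjoint_compl_right (a := b)).mono inf_le_right inf_le_right

lemma IsFinAdd.restrict {m : A → ℝ} (hm : IsFinAdd m) (b : A) :
    IsFinAdd (fun a => m (a ⊓ b)) := by
  refine ⟨fun a => hm.nonneg _, fun a c hac => ?_⟩
  show m ((a ⊔ c) ⊓ b) = _
  rw [inf_sup_right]
  exact hm.add _ _ (hac.mono inf_le_left inf_le_left)

lemma pos_mono {L : StrongDual ℝ C(Stone A, ℝ)} (hL : ∀ h : C(Stone A, ℝ), 0 ≤ h → 0 ≤ L h)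
    {f g : C(Stone A, ℝ)} (hfg : f ≤ g) : L f ≤ L g := by
  have := hL (g - f) (sub_nonneg.mpr hfg)
  rw [map_sub] at this
  linarith

lemma exists_functional_finite (F : Finset A) : ∀ (c : A) (m : A → ℝ), IsFinAdd m → m cᶜ = 0 →
    ∃ L : StrongDual ℝ C(Stone A, ℝ), (∀ h : C(Stone A, ℝ), 0 ≤ h → 0 ≤ L h) ∧
      L 1 = m ⊤ ∧ L (ind c) = m ⊤ ∧ ∀ a ∈ F, L (ind a) = m a := by
  classical
  induction F using Finset.induction_on with
  | empty =>
    intro c m hm hc
    by_cases hbot : c = ⊥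
    · subst hbot
      rw [compl_bot] at hc
      exact ⟨0, by simp, by simp [hc], by simp [hc], by simp⟩
    · obtain ⟨x, hx⟩ := exists_point c hbot
      refine ⟨m ⊤ • evalAt x, ?_, ?_, ?_, by simp⟩
      · intro h hh
        show 0 ≤ m ⊤ * h x
        exact mul_nonneg (hm.nonneg _) (hh x)
      · simp [evalAt_apply]
      · simp [evalAt_apply, ind_apply, hx]
  | insert b F hb ih =>
    intro c m hm hc
    obtain ⟨L1, hp1, h11, h1c, h1F⟩ := ih (c ⊓ b) (fun a => m (a ⊓ b)) (hm.restrict b) (by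
      show m ((c ⊓ b)ᶜ ⊓ b) = 0
      have : (c ⊓ b)ᶜ ⊓ b ≤ cᶜ := by
        rw [compl_inf, inf_sup_right]
        simp
      exact le_antisymm (hc ▸ hm.mono this) (hm.nonneg _))
    obtain ⟨L2, hp2, h21, h2c, h2F⟩ := ih (c ⊓ bᶜ) (fun a => m (a ⊓ bᶜ)) (hm.restrict bᶜ) (by
      show m ((c ⊓ bᶜ)ᶜ ⊓ bᶜ) = 0
      have : (c ⊓ bᶜ)ᶜ ⊓ bᶜ ≤ cᶜ := by
        rw [compl_inf, inf_sup_right]
        simp
      exact le_antisymm (hc ▸ hm.mono this) (hm.nonneg _))
    have k1 : ∀ {d : A}, c ⊓ b ≤ d → L1 (ind d) = L1 1 := by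
      intro d hd
      apply le_antisymm (pos_mono hp1 (ind_le_one d))
      rw [h11, ← h1c]
      exact pos_mono hp1 (ind_mono hd)
    have k2 : ∀ {d : A}, c ⊓ bᶜ ≤ d → L2 (ind d) = L2 1 := by
      intro d hd
      apply le_antisymm (pos_mono hp2 (ind_le_one d))
      rw [h21, ← h2c]
      exact pos_mono hp2 (ind_mono hd)
    have k2' : L2 (ind b) = 0 := by
      have := k2 (d := bᶜ) inf_le_right
      rw [ind_compl, map_sub] at this
      linarith
    refine ⟨L1 + L2, ?_, ?_, ?_, ?_⟩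
    · intro h hh
      exact add_nonneg (hp1 h hh) (hp2 h hh)
    · rw [add_apply, h11, h21]
      exact (hm.split ⊤ b).symm
    · rw [add_apply, k1 inf_le_left, k2 inf_le_left, h11, h21]
      exact (hm.split ⊤ b).symm
    · intro a ha
      rw [Finset.mem_insert] at ha
      rcases ha with rfl | ha
      · rw [add_apply, k1 inf_le_right, k2', h11]
        simp
      · rw [add_apply, h1F a ha, h2F a ha]
        exact (hm.split a b).symm

lemma norm_le_of_pos {L : StrongDual ℝ C(Stone A, ℝ)}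
    (hL : ∀ h : C(Stone A, ℝ), 0 ≤ h → 0 ≤ L h) : ‖L‖ ≤ L 1 := by
  have h1 : 0 ≤ L 1 := hL 1 (by intro x; simp)
  refine ContinuousLinearMap.opNorm_le_bound _ h1 fun h => ?_
  have hle : ∀ x, |h x| ≤ ‖h‖ := fun x => h.norm_coe_le_norm x
  have e1 : L h ≤ L (‖h‖ • (1 : C(Stone A, ℝ))) := by
    apply pos_mono hL
    intro x
    simpa using (abs_le.mp (hle x)).2
  have e2 : L (-(‖h‖ • (1 : C(Stone A, ℝ)))) ≤ L h := by
    apply pos_mono hL
    intro x
    simpa using (abs_le.mp (hle x)).1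
  rw [map_neg] at e2
  rw [map_smul, smul_eq_mul] at e1 e2
  rw [Real.norm_eq_abs, abs_le]
  constructor <;> nlinarith

/-- Every non-negative finitely additive function extends to a positive functional. -/
lemma exists_functional (m : A → ℝ) (hm : IsFinAdd m) :
    ∃ L : StrongDual ℝ C(Stone A, ℝ), ‖L‖ ≤ m ⊤ ∧ (∀ h : C(Stone A, ℝ), 0 ≤ h → 0 ≤ L h) ∧
      ∀ a, L (ind a) = m a := by
  refine exists_dual_of_finite (m ⊤) {h | 0 ≤ h} ind m fun F => ?_
  obtain ⟨L, hp, h1, -, hF⟩ := exists_functional_finite F ⊤ m hm (by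
      rw [compl_top]; exact hm.bot)
  exact ⟨L, h1 ▸ norm_le_of_pos hp, hp, hF⟩

end Pool.Agent.Hhelper78.MP955413
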