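import Pool.Agent.Hhelper78.MP955413.Measure

/-!
# The main argument
-/

open MeasureTheory Filter Topology

namespace Pool.Agent.Hhelper78.MP955413

universe u v

variable {A : Type u} [BooleanAlgebra A] {Ω : Type v} [MeasurableSpace Ω] {P : Measure Ω}

lemma hom_compl (θ : BoundedLatticeHom A (MeasAlg P)) (a : A) : θ aᶜ = (θ a)ᶜ := by
  have h : IsCompl (θ a) (θ aᶜ) := by
    refine IsCompl.of_eq ?_ ?_
    · rw [← InfHomClass.map_inf, inf_compl_eq_bot, BotHomClass.map_bot]
    · rw [← SupHomClass.map_sup, sup_compl_eq_top, TopHomClass.map_top]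
  exact h.compl_eq.symm

/-- For a.e. `r` the map `a ↦ (r ∈ rep (θ a))` respects the operations on a finite set of data. -/
lemma hom_finset_inf {ι : Type*} (θ : BoundedLatticeHom A (MeasAlg P)) (F : Finset ι) (f : ι → A) :
    ∀ᵐ r ∂P, (r ∈ rep (θ (F.inf f)) ↔ ∀ i ∈ F, r ∈ rep (θ (f i))) := by
  classical
  induction F using Finset.induction_on with
  | empty =>
    filter_upwards [rep_top (P := P)] with r hr
    simp [hr]
  | insert b F hb ih =>
    filter_upwards [ih, rep_inf (θ (f b)) (θ (F.inf f))] with r hr h2
    rw [Finset.inf_insert, InfHomClass.map_inf, h2, hr]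
    simp

lemma hom_finset_sup {ι : Type*} (θ : BoundedLatticeHom A (MeasAlg P)) (F : Finset ι) (f : ι → A) :
    ∀ᵐ r ∂P, (r ∈ rep (θ (F.sup f)) ↔ ∃ i ∈ F, r ∈ rep (θ (f i))) := by
  classical
  induction F using Finset.induction_on with
  | empty =>
    filter_upwards [rep_bot (P := P)] with r hr
    simp [hr]
  | insert b F hb ih =>
    filter_upwards [ih, rep_sup (θ (f b)) (θ (F.sup f))] with r hr h2
    rw [Finset.sup_insert, SupHomClass.map_sup, h2, hr]
    simp

/-- The atom of the finite subalgebra generated by `a 0, ..., a (L-1)` given by a pattern. -/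
noncomputable def atomOf {L : ℕ} (a : Fin L → A) (g : Fin L → Bool) : A :=
  Finset.univ.inf (fun j => if g j then a j else (a j)ᶜ)

/-- The union of the atoms of colour `0`. -/
noncomputable def colored {L Q : ℕ} (a : Fin L → A) (c : (Fin L → Bool) → Fin (Q + 1)) : A :=
  (Finset.univ.filter (fun g => c g = 0)).sup (atomOf a)

open Classical in
/-- The pattern of a point `r` under a homomorphism. -/
noncomputable def pattern {L : ℕ} (θ : BoundedLatticeHom A (MeasAlg P)) (a : Fin L → A) (r : Ω) :
    Fin L → Bool := fun j => decide (r ∈ rep (θ (a j)))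

lemma measurable_pattern {L : ℕ} (θ : BoundedLatticeHom A (MeasAlg P)) (a : Fin L → A) :
    Measurable (pattern θ a : Ω → (Fin L → Bool)) := by
  classical
  rw [measurable_pi_iff]
  intro j
  exact measurable_to_bool (by
    have : (fun c => pattern θ a c j) ⁻¹' {true} = rep (θ (a j)) := by
      ext r; simp [pattern]
    rw [this]
    exact measurableSet_rep _)

lemma rep_colored {L Q : ℕ} (θ : BoundedLatticeHom A (MeasAlg P)) (a : Fin L → A)
    (c : (Fin L → Bool) → Fin (Q + 1)) :
    ∀ᵐ r ∂P, (r ∈ rep (θ (colored a c)) ↔ c (pattern θ a r) = 0) := by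
  classical
  have h1 := hom_finset_sup θ (Finset.univ.filter (fun g => c g = 0)) (atomOf a)
  have h2 : ∀ᵐ r ∂P, ∀ g : Fin L → Bool, (r ∈ rep (θ (atomOf a g)) ↔
      ∀ j ∈ (Finset.univ : Finset (Fin L)), r ∈ rep (θ (if g j then a j else (a j)ᶜ))) := by
    rw [ae_all_iff]
    exact fun g => hom_finset_inf θ Finset.univ _
  have h3 : ∀ᵐ r ∂P, ∀ j : Fin L, (r ∈ rep (θ (a j))ᶜ ↔ r ∉ rep (θ (a j))) := by
    rw [ae_all_iff]
    exact fun j => rep_compl _
  filter_upwards [h1, h2, h3] with r h1 h2 h3
  have h4 : ∀ g : Fin L → Bool, r ∈ rep (θ (atomOf a g)) ↔ g = pattern θ a r := by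
    intro g
    rw [h2 g]
    constructor
    · intro h
      funext j
      have := h j (Finset.mem_univ j)
      unfold pattern
      cases hg : g j
      · rw [hg] at this
        simp only [Bool.false_eq_true, if_false, hom_compl] at this
        rw [h3 j] at this
        simp [this]
      · rw [hg] at this
        simp only [if_true] at this
        simp [this]
    · rintro rfl j -
      by_cases hr : r ∈ rep (θ (a j))
      · have : pattern θ a r j = true := by simp [pattern, hr]
        rw [this]
        simpa using hr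
      · have : pattern θ a r j = false := by simp [pattern, hr]
        rw [this]
        simp only [Bool.false_eq_true, if_false, hom_compl]
        rw [h3 j]
        exact hr
  unfold colored
  rw [h1]
  simp only [Finset.mem_filter, Finset.mem_univ, true_and, h4]
  constructor
  · rintro ⟨g, hg, rfl⟩; exact hg
  · intro h; exact ⟨_, h, rfl⟩

/-- The selection lemma: if a sequence of homomorphisms converges pointwise algebraically but not
uniformly, there are elements of arbitrarily small limit measure which are hit by the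
sequence, arbitrarily late, with probability bounded from below. -/
lemma exists_small [IsProbabilityMeasure P] (φ : ℕ → BoundedLatticeHom A (MeasAlg P))
    (ψ : BoundedLatticeHom A (MeasAlg P)) (hconv : PointwiseAlgConv φ ψ)
    {ε : ℝ} (hε : 0 < ε) (hfreq : ∀ N, ∃ n ≥ N, ∃ a, ε ≤ P.real (symm (φ n a) (ψ a)))
    {δ : ℝ} (hδ : 0 < δ) (N : ℕ) :
    ∃ B : A, ∃ (L : ℕ) (n : ℕ → ℕ), (∀ i, N ≤ n i) ∧ P.real (rep (ψ B)) < δ ∧
      ε / 8 ≤ P.real (⋃ i ∈ Finset.range L, rep (φ (n i) B)) := by
  classical
  -- constants
  obtain ⟨Q, hQ⟩ := exists_nat_gt (2 / δ)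
  have hQ1 : (0 : ℝ) < Q + 1 := by positivity
  have hr0 : (0 : ℝ) ≤ (Q : ℝ) / (Q + 1) := by positivity
  have hr1 : (Q : ℝ) / (Q + 1) < 1 := by rw [div_lt_one hQ1]; linarith
  obtain ⟨M, hM⟩ := exists_pow_lt_of_lt_one (show 0 < ε / 16 by positivity) hr1
  obtain ⟨L, hL⟩ := exists_nat_gt (2 * M / ε)
  have hLpos : (0 : ℝ) < L := lt_of_le_of_lt (by positivity) hL
  set η : ℝ := ε / (4 * L ^ 2) with hη
  have hηpos : 0 < η := by positivity
  -- the fast sequence
  obtain ⟨f, hf1, hf2⟩ := exists_seq_of_forall_finset_exists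
    (fun p : ℕ × A => N ≤ p.1 ∧ ε ≤ P.real (symm (φ p.1 p.2) (ψ p.2)))
    (fun p q : ℕ × A => P.real (symm (φ q.1 p.2) (ψ p.2)) ≤ η) (by
      intro s _
      have hev : ∀ x ∈ s, ∀ᶠ m in atTop, P.real (symm (φ m x.2) (ψ x.2)) ≤ η := by
        intro x _
        have := (hconv x.2).tendsto_tail
        filter_upwards [this.eventually (gt_mem_nhds hηpos)] with m hm
        refine le_trans (measureReal_mono ?_) hm.le
        exact Set.subset_iUnion₂ (s := fun m' _ => symm (φ m' x.2) (ψ x.2)) m le_rfl
      rw [← Filter.eventually_all_finset] at hev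
      obtain ⟨N', hN'⟩ := eventually_atTop.mp hev
      obtain ⟨n, hn, a, ha⟩ := hfreq (max N N')
      exact ⟨(n, a), ⟨le_trans (le_max_left _ _) hn, ha⟩,
        fun x hx => hN' n (le_trans (le_max_right _ _) hn) x hx⟩)
  let n : ℕ → ℕ := fun i => (f i).1
  let a : Fin L → A := fun i => (f i).2
  -- sets
  let D : Fin L → Set Ω := fun i => symm (φ (n i) (a i)) (ψ (a i))
  have hDm : ∀ i, MeasurableSet (D i) := fun i => measurableSet_symm _ _
  let cnt : Ω → Finset (Fin L) := fun r => Finset.univ.filter (fun i => r ∈ D i)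
  let R0 : Set Ω := {r | M ≤ (cnt r).card}
  have hR0m : MeasurableSet R0 := by
    have : R0 = ⋃ (T : Finset (Fin L)) (_ : M ≤ T.card), ⋂ i ∈ T, D i := by
      ext r
      simp only [R0, cnt, Set.mem_ofPred_eq, Set.mem_iUnion, Set.mem_iInter, exists_prop]
      constructor
      · intro h
        exact ⟨_, h, fun i hi => (Finset.mem_filter.mp hi).2⟩
      · rintro ⟨T, hT, h⟩
        exact hT.trans (Finset.card_le_card fun i hi => Finset.mem_filter.mpr ⟨Finset.mem_univ _, h i hi⟩)
    rw [this]
    exact MeasurableSet.iUnion fun T => MeasurableSet.iUnion fun _ =>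
      MeasurableSet.biInter (Set.to_countable _) fun i _ => hDm i
  have hR0 : ε / 2 ≤ P.real R0 := by
    have h1 : ∑ i : Fin L, P.real (D i) ≤ M + L * P.real R0 := by
      refine sum_real_le Finset.univ D (fun i _ => hDm i) R0 hR0m M L fun r => ?_
      have h2 : ∑ i : Fin L, (D i).indicator (fun _ => (1 : ℝ)) r = (cnt r).card := by
        simp only [Set.indicator_apply, cnt]
        rw [Finset.sum_boole]
      rw [h2]
      by_cases hr : r ∈ R0
      · rw [Set.indicator_of_mem hr]
        have : ((cnt r).card : ℝ) ≤ L := by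
          exact_mod_cast (Finset.card_le_univ _).trans (by simp)
        have : (0 : ℝ) ≤ M := by positivity
        linarith
      · rw [Set.indicator_of_notMem hr]
        have : (cnt r).card < M := not_le.mp hr
        have : ((cnt r).card : ℝ) < M := by exact_mod_cast this
        linarith
    have h3 : (L : ℝ) * ε ≤ ∑ i : Fin L, P.real (D i) := by
      calc (L : ℝ) * ε = ∑ _i : Fin L, ε := by simp
        _ ≤ _ := Finset.sum_le_sum fun i _ => (hf1 i).2
    have h4 : 2 * (M : ℝ) < L * ε := by
      rwa [div_lt_iff₀ hε] at hL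
    have h5 : (L : ℝ) * (ε / 2) ≤ L * P.real R0 := by linarith
    exact le_of_mul_le_mul_left h5 hLpos
  let Bad : Set Ω := ⋃ (i : Fin L) (j : Fin L) (_ : i < j), symm (φ (n j) (a i)) (ψ (a i))
  have hBadm : MeasurableSet Bad := MeasurableSet.iUnion fun i => MeasurableSet.iUnion fun j =>
    MeasurableSet.iUnion fun _ => measurableSet_symm _ _
  have hBad : P.real Bad ≤ ε / 4 := by
    have h1 : P.real Bad ≤ ∑ i : Fin L, ∑ j : Fin L, η := by
      refine (measureReal_iUnion_fintype_le _).trans (Finset.sum_le_sum fun i _ => ?_)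
      refine (measureReal_iUnion_fintype_le _).trans (Finset.sum_le_sum fun j _ => ?_)
      by_cases hij : i < j
      · simp only [hij, Set.iUnion_true]
        exact hf2 i j hij
      · simp only [hij, Set.iUnion_false, measureReal_empty]
        exact hηpos.le
    refine h1.trans ?_
    simp only [Finset.sum_const, Finset.card_univ, Fintype.card_fin, nsmul_eq_mul]
    rw [hη]
    have : (L : ℝ) * (L * (ε / (4 * L ^ 2))) = ε / 4 := by field_simp
    rw [this]
  let R : Set Ω := R0 \ Bad
  have hRm : MeasurableSet R := hR0m.diff hBadm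
  have hR : ε / 4 ≤ P.real R := by
    have : P.real R0 ≤ P.real R + P.real Bad := by
      refine (measureReal_mono (s₂ := R ∪ Bad) ?_).trans (measureReal_union_le _ _)
      intro r hr
      by_cases hb : r ∈ Bad
      · exact Or.inr hb
      · exact Or.inl ⟨hr, hb⟩
    linarith
  -- on R there are at least M patterns
  let T : Ω → Finset (Fin L → Bool) := fun r =>
    (cnt r).image (fun i : Fin L => pattern (φ (n i)) a r)
  have hT : ∀ r ∈ R, M ≤ (T r).card := by
    intro r hr
    have hinj : Set.InjOn (fun i : Fin L => pattern (φ (n i)) a r) (cnt r) := by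
      have key : ∀ i j : Fin L, i < j → i ∈ cnt r → j ∈ cnt r →
          pattern (φ (n i)) a r ≠ pattern (φ (n j)) a r := by
        intro i j hij hi _ heq
        have h1 : r ∈ D i := (Finset.mem_filter.mp hi).2
        have h2 : r ∉ symm (φ (n j) (a i)) (ψ (a i)) := by
          intro hcon
          exact hr.2 (Set.mem_iUnion.mpr ⟨i, Set.mem_iUnion.mpr ⟨j, Set.mem_iUnion.mpr ⟨hij, hcon⟩⟩⟩)
        have h3 := congrFun heq i
        simp only [pattern, decide_eq_decide] at h3
        have h1' : ¬ (r ∈ rep (φ (n i) (a i)) ↔ r ∈ rep (ψ (a i))) := h1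
        have h2' : r ∈ rep (φ (n j) (a i)) ↔ r ∈ rep (ψ (a i)) := not_not.mp h2
        exact h1' (h3.trans h2')
      intro i hi j hj heq
      rcases lt_trichotomy i j with h | h | h
      · exact absurd heq (key i j h hi hj)
      · exact h
      · exact absurd heq.symm (key j i h hj hi)
    show M ≤ ((cnt r).image _).card
    rw [Finset.card_image_of_injOn hinj]
    exact hr.1
  -- colourings
  let C := (Fin L → Bool) → Fin (Q + 1)
  have hCpos : (0 : ℝ) < Fintype.card C := by
    exact_mod_cast Fintype.card_pos
  let S : C → Set Ω := fun c => {r | c (pattern ψ a r) = 0}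
  have hSm : ∀ c, MeasurableSet (S c) := fun c =>
    (measurable_pattern ψ a) (MeasurableSet.of_discrete (s := {g | c g = 0}))
  let S' : C → Set Ω := fun c => {r | r ∈ R ∧ ∀ i : Fin L, c (pattern (φ (n i)) a r) ≠ 0}
  have hS'm : ∀ c, MeasurableSet (S' c) := fun c => by
    have : S' c = R ∩ ⋂ i : Fin L, (pattern (φ (n i)) a) ⁻¹' {g | c g ≠ 0} := by
      ext r; simp [S']
    rw [this]
    exact hRm.inter (MeasurableSet.iInter fun i =>
      (measurable_pattern _ a) (MeasurableSet.of_discrete))
  have hsum1 : ∑ c : C, P.real (S c) ≤ Fintype.card C / (Q + 1) := by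
    have := sum_real_le (P := P) Finset.univ S (fun c _ => hSm c) ∅ MeasurableSet.empty
      (Fintype.card C / (Q + 1)) 0 (by
        intro r
        have h2 : ∑ c : C, (S c).indicator (fun _ => (1 : ℝ)) r =
            (Finset.univ.filter fun c : C => c (pattern ψ a r) = 0).card := by
          simp only [Set.indicator_apply, S, Set.mem_ofPred_eq]
          rw [Finset.sum_boole]
        rw [h2, zero_mul, add_zero, le_div_iff₀ hQ1]
        exact (card_color_eq Q (pattern ψ a r)).le)
    simpa using this
  have hsum2 : ∑ c : C, P.real (S' c) ≤ Fintype.card C * ((Q : ℝ) / (Q + 1)) ^ M := by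
    have := sum_real_le (P := P) Finset.univ S' (fun c _ => hS'm c) ∅ MeasurableSet.empty
      (Fintype.card C * ((Q : ℝ) / (Q + 1)) ^ M) 0 (by
        intro r
        have h2 : ∑ c : C, (S' c).indicator (fun _ => (1 : ℝ)) r =
            (Finset.univ.filter fun c : C => r ∈ R ∧
              ∀ i : Fin L, c (pattern (φ (n i)) a r) ≠ 0).card := by
          simp only [Set.indicator_apply, S', Set.mem_ofPred_eq]
          rw [Finset.sum_boole]
        rw [h2, zero_mul, add_zero]
        by_cases hr : r ∈ R
        · refine le_trans ?_ (card_color_avoid Q (T r) M (hT r hr))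
          norm_cast
          refine Finset.card_le_card fun c hc => ?_
          simp only [Finset.mem_filter, Finset.mem_univ, true_and] at hc ⊢
          intro g hg
          obtain ⟨i, -, rfl⟩ := Finset.mem_image.mp hg
          exact hc.2 i
        · have : (Finset.univ.filter fun c : C => r ∈ R ∧
              ∀ i : Fin L, c (pattern (φ (n i)) a r) ≠ 0) = ∅ := by
            apply Finset.filter_false_of_mem
            intro c _ hc
            exact hr hc.1
          rw [this]
          simp only [Finset.card_empty, Nat.cast_zero]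
          positivity)
    simpa using this
  -- choose a colouring
  have hex : ∃ c : C, P.real (S c) < δ ∧ P.real (S' c) < ε / 8 := by
    by_contra hcon
    push Not at hcon
    have hge : ∀ c : C, 1 ≤ P.real (S c) / δ + P.real (S' c) / (ε / 8) := by
      intro c
      have p1 : 0 ≤ P.real (S c) / δ := div_nonneg measureReal_nonneg hδ.le
      have p2 : 0 ≤ P.real (S' c) / (ε / 8) := div_nonneg measureReal_nonneg (by positivity)
      by_cases hc : P.real (S c) < δ
      · have h2 := hcon c hc
        have : 1 ≤ P.real (S' c) / (ε / 8) := by rwa [one_le_div (by positivity)]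
        linarith
      · have : 1 ≤ P.real (S c) / δ := by rw [one_le_div hδ]; exact not_lt.mp hc
        linarith
    have h1 : (Fintype.card C : ℝ) ≤ ∑ c : C, (P.real (S c) / δ + P.real (S' c) / (ε / 8)) := by
      calc (Fintype.card C : ℝ) = ∑ _c : C, (1 : ℝ) := by simp
        _ ≤ _ := Finset.sum_le_sum fun c _ => hge c
    rw [Finset.sum_add_distrib, ← Finset.sum_div, ← Finset.sum_div] at h1
    have h2 : (∑ c : C, P.real (S c)) / δ < Fintype.card C / 2 := by
      have e1 : (∑ c : C, P.real (S c)) / δ ≤ (Fintype.card C / (Q + 1)) / δ := by gcongr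
      have e2 : (Fintype.card C : ℝ) / (Q + 1) / δ < Fintype.card C / 2 := by
        rw [div_div]
        apply div_lt_div_of_pos_left hCpos (by norm_num)
        rw [div_lt_iff₀ hδ] at hQ
        nlinarith
      linarith
    have h3 : (∑ c : C, P.real (S' c)) / (ε / 8) ≤ Fintype.card C / 2 := by
      rw [div_le_iff₀ (by positivity)]
      calc ∑ c : C, P.real (S' c) ≤ Fintype.card C * ((Q : ℝ) / (Q + 1)) ^ M := hsum2
        _ ≤ Fintype.card C * (ε / 16) := by gcongr
        _ = _ := by ring
    linarith
  obtain ⟨c, hc1, hc2⟩ := hex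
  refine ⟨colored a c, L, n, fun i => (hf1 i).1, ?_, ?_⟩
  · have : P.real (rep (ψ (colored a c))) = P.real (S c) := by
      apply measureReal_congr
      apply Filter.Eventually.set_eq
      exact rep_colored ψ a c
    rw [this]; exact hc1
  · have h1 : P.real R ≤ P.real (⋃ i ∈ Finset.range L, rep (φ (n i) (colored a c))) +
        P.real (S' c) := by
      have h2 : P.real R ≤ P.real ((⋃ i ∈ Finset.range L, rep (φ (n i) (colored a c))) ∪ S' c) := by
        apply ENNReal.toReal_mono (measure_ne_top _ _)
        apply measure_mono_ae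
        have h3 : ∀ᵐ r ∂P, ∀ i : Fin L, (r ∈ rep (φ (n i) (colored a c)) ↔
            c (pattern (φ (n i)) a r) = 0) := by
          rw [ae_all_iff]
          exact fun i => rep_colored (φ (n i)) a c
        filter_upwards [h3] with r hr hrR
        by_cases hex : ∃ i : Fin L, c (pattern (φ (n i)) a r) = 0
        · obtain ⟨i, hi⟩ := hex
          left
          refine Set.mem_iUnion₂.mpr ⟨(i : ℕ), Finset.mem_range.mpr i.2, ?_⟩
          exact (hr i).mpr hi
        · right
          push Not at hex
          exact ⟨hrR, hex⟩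
      exact h2.trans (measureReal_union_le _ _)
    linarith

end Pool.Agent.Hhelper78.MP955413
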