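import Pool.Agent.Hhelper78.MP955413.Functional

/-!
# Measure theory part: representatives and the colouring argument
-/

open MeasureTheory Filter Topology

namespace Pool.Agent.Hhelper78.MP955413

universe u v

section Rep

variable {Ω : Type v} [MeasurableSpace Ω] {P : Measure Ω}

/-- A measurable representative. -/
noncomputable def rep (p : MeasAlg P) : Set Ω := (Quotient.out p).1

lemma measurableSet_rep (p : MeasAlg P) : MeasurableSet (rep p) := (Quotient.out p).2

lemma mk_rep (p : MeasAlg P) : MeasAlg.mk P ⟨rep p, measurableSet_rep p⟩ = p :=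
  Quotient.out_eq p

lemma rep_mk (s : {s : Set Ω // MeasurableSet s}) : rep (MeasAlg.mk P s) =ᵐ[P] (s : Set Ω) :=
  Quotient.exact (Quotient.out_eq (MeasAlg.mk P s))

lemma le_iff_rep {p q : MeasAlg P} : p ≤ q ↔ rep p ≤ᵐ[P] rep q := by
  conv_lhs => rw [← mk_rep p, ← mk_rep q]
  exact Iff.rfl

lemma rep_inf (p q : MeasAlg P) : ∀ᵐ r ∂P, (r ∈ rep (p ⊓ q) ↔ r ∈ rep p ∧ r ∈ rep q) := by
  have h : rep (p ⊓ q) =ᵐ[P] (rep p ∩ rep q : Set Ω) := by
    have : p ⊓ q = MeasAlg.mk P ⟨rep p ∩ rep q, (measurableSet_rep p).inter (measurableSet_rep q)⟩ := by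
      conv_lhs => rw [← mk_rep p, ← mk_rep q]
      rfl
    rw [this]
    exact rep_mk _
  filter_upwards [h.mem_iff] with r hr
  exact hr

lemma rep_sup (p q : MeasAlg P) : ∀ᵐ r ∂P, (r ∈ rep (p ⊔ q) ↔ r ∈ rep p ∨ r ∈ rep q) := by
  have h : rep (p ⊔ q) =ᵐ[P] (rep p ∪ rep q : Set Ω) := by
    have : p ⊔ q = MeasAlg.mk P ⟨rep p ∪ rep q, (measurableSet_rep p).union (measurableSet_rep q)⟩ := by
      conv_lhs => rw [← mk_rep p, ← mk_rep q]
      rfl
    rw [this]
    exact rep_mk _
  filter_upwards [h.mem_iff] with r hr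
  exact hr

lemma rep_compl (p : MeasAlg P) : ∀ᵐ r ∂P, (r ∈ rep pᶜ ↔ r ∉ rep p) := by
  have h : rep pᶜ =ᵐ[P] ((rep p)ᶜ : Set Ω) := by
    have : pᶜ = MeasAlg.mk P ⟨(rep p)ᶜ, (measurableSet_rep p).compl⟩ := by
      conv_lhs => rw [← mk_rep p]
      rfl
    rw [this]
    exact rep_mk _
  filter_upwards [h.mem_iff] with r hr
  exact hr

lemma rep_top : ∀ᵐ r ∂P, r ∈ rep (⊤ : MeasAlg P) := by
  have h : rep (⊤ : MeasAlg P) =ᵐ[P] (Set.univ : Set Ω) := rep_mk (P := P) ⟨Set.univ, MeasurableSet.univ⟩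
  filter_upwards [h.mem_iff] with r hr
  exact hr.mpr (Set.mem_univ r)

lemma rep_bot : ∀ᵐ r ∂P, r ∉ rep (⊥ : MeasAlg P) := by
  have h : rep (⊥ : MeasAlg P) =ᵐ[P] (∅ : Set Ω) := rep_mk (P := P) ⟨∅, MeasurableSet.empty⟩
  filter_upwards [h.mem_iff] with r hr
  exact fun hr' => Set.notMem_empty r (hr.mp hr')

lemma mass_eq (p : MeasAlg P) : MeasAlg.mass p = P.real (rep p) := by
  conv_lhs => rw [← mk_rep p]
  rfl

/-- Symmetric difference of representatives. -/
def symm (p q : MeasAlg P) : Set Ω := {r | ¬ (r ∈ rep p ↔ r ∈ rep q)}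

lemma symm_eq (p q : MeasAlg P) : symm p q = symmDiff (rep p) (rep q) := by
  ext r
  simp only [symm, Set.mem_ofPred_eq, Set.mem_symmDiff]
  tauto

lemma measurableSet_symm (p q : MeasAlg P) : MeasurableSet (symm p q) := by
  rw [symm_eq]
  exact (measurableSet_rep p).symmDiff (measurableSet_rep q)

lemma dist_eq (p q : MeasAlg P) : MeasAlg.dist p q = P.real (symm p q) := by
  unfold MeasAlg.dist
  rw [mass_eq]
  apply measureReal_congr
  rw [symmDiff_eq]
  apply Filter.Eventually.set_eq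
  filter_upwards [rep_sup (p ⊓ qᶜ) (q ⊓ pᶜ), rep_inf p qᶜ, rep_inf q pᶜ, rep_compl p, rep_compl q]
    with r h1 h2 h3 h4 h5
  rw [h1, h2, h3, h4, h5]
  simp only [symm, Set.mem_ofPred_eq]
  tauto

/-- Order convergence in the measure algebra is almost everywhere convergence. -/
lemma AlgConv.ae {x : ℕ → MeasAlg P} {y : MeasAlg P} (h : AlgConv x y) :
    ∀ᵐ r ∂P, ∀ᶠ m in atTop, (r ∈ rep (x m) ↔ r ∈ rep y) := by
  obtain ⟨l, w, hl, hw, hly, hwy⟩ := h
  have h1 : ∀ᵐ r ∂P, ∀ n, ∀ m > n, r ∈ rep (l n) → r ∈ rep (x m) := by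
    rw [ae_all_iff]; intro n
    rw [ae_all_iff]; intro m
    by_cases hm : m > n
    · have := le_iff_rep.mp ((hl n).1 ⟨m, hm, rfl⟩)
      filter_upwards [this] with r hr _ hr'
      exact hr hr'
    · exact Filter.Eventually.of_forall fun r hm' => absurd hm' hm
  have h2 : ∀ᵐ r ∂P, ∀ n, ∀ m > n, r ∈ rep (x m) → r ∈ rep (w n) := by
    rw [ae_all_iff]; intro n
    rw [ae_all_iff]; intro m
    by_cases hm : m > n
    · have := le_iff_rep.mp ((hw n).1 ⟨m, hm, rfl⟩)
      filter_upwards [this] with r hr _ hr'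
      exact hr hr'
    · exact Filter.Eventually.of_forall fun r hm' => absurd hm' hm
  have h3 : ∀ᵐ r ∂P, r ∈ rep y → ∃ n, r ∈ rep (l n) := by
    have hV : MeasurableSet (⋃ n, rep (l n)) := MeasurableSet.iUnion fun n => measurableSet_rep _
    have hub : MeasAlg.mk P ⟨_, hV⟩ ∈ upperBounds (Set.range l) := by
      rintro _ ⟨n, rfl⟩
      rw [le_iff_rep]
      filter_upwards [(rep_mk (P := P) ⟨_, hV⟩).mem_iff] with r hr hr'
      exact hr.mpr (Set.mem_iUnion.mpr ⟨n, hr'⟩)
    have := le_iff_rep.mp (hly.2 hub)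
    filter_upwards [this, (rep_mk (P := P) ⟨_, hV⟩).mem_iff] with r hr hr2 hr'
    exact Set.mem_iUnion.mp (hr2.mp (hr hr'))
  have h4 : ∀ᵐ r ∂P, (∀ n, r ∈ rep (w n)) → r ∈ rep y := by
    have hV : MeasurableSet (⋂ n, rep (w n)) := MeasurableSet.iInter fun n => measurableSet_rep _
    have hlb : MeasAlg.mk P ⟨_, hV⟩ ∈ lowerBounds (Set.range w) := by
      rintro _ ⟨n, rfl⟩
      rw [le_iff_rep]
      filter_upwards [(rep_mk (P := P) ⟨_, hV⟩).mem_iff] with r hr hr'
      exact Set.mem_iInter.mp (hr.mp hr') n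
    have := le_iff_rep.mp (hwy.2 hlb)
    filter_upwards [this, (rep_mk (P := P) ⟨_, hV⟩).mem_iff] with r hr hr2 hr'
    exact hr (hr2.mpr (Set.mem_iInter.mpr hr'))
  filter_upwards [h1, h2, h3, h4] with r h1 h2 h3 h4
  by_cases hy : r ∈ rep y
  · obtain ⟨n, hn⟩ := h3 hy
    filter_upwards [eventually_gt_atTop n] with m hm
    exact ⟨fun _ => hy, fun _ => h1 n m hm hn⟩
  · have : ∃ n, r ∉ rep (w n) := by
      by_contra hcon
      push Not at hcon
      exact hy (h4 hcon)
    obtain ⟨n, hn⟩ := this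
    filter_upwards [eventually_gt_atTop n] with m hm
    exact ⟨fun hx => absurd (h2 n m hm hx) hn, fun hx => absurd hx hy⟩

/-- The union of the tail of symmetric differences. -/
def tail (x : ℕ → MeasAlg P) (y : MeasAlg P) (k : ℕ) : Set Ω := ⋃ m ≥ k, symm (x m) y

lemma measurableSet_tail (x : ℕ → MeasAlg P) (y : MeasAlg P) (k : ℕ) :
    MeasurableSet (tail x y k) :=
  MeasurableSet.iUnion fun _ => MeasurableSet.iUnion fun _ => measurableSet_symm _ _

lemma AlgConv.tendsto_tail [IsFiniteMeasure P] {x : ℕ → MeasAlg P} {y : MeasAlg P}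
    (h : AlgConv x y) : Tendsto (fun k => P.real (tail x y k)) atTop (𝓝 0) := by
  have hanti : Antitone (tail x y) := by
    intro k k' hk
    apply Set.iUnion_subset; intro m
    apply Set.iUnion_subset; intro hm
    exact Set.subset_iUnion₂ (s := fun m _ => symm (x m) y) m (le_trans hk hm)
  have hzero : P (⋂ k, tail x y k) = 0 := by
    rw [measure_eq_zero_iff_ae_notMem]
    filter_upwards [h.ae] with r hr hmem
    obtain ⟨N, hN⟩ := eventually_atTop.mp hr
    have := Set.mem_iInter.mp hmem N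
    obtain ⟨m, hm⟩ := Set.mem_iUnion.mp this
    obtain ⟨hm1, hm2⟩ := Set.mem_iUnion.mp hm
    exact hm2 (hN m hm1)
  have h1 := tendsto_measure_iInter_atTop (μ := P)
    (fun k => (measurableSet_tail x y k).nullMeasurableSet) hanti ⟨0, measure_ne_top _ _⟩
  rw [hzero] at h1
  exact (ENNReal.tendsto_toReal ENNReal.zero_ne_top).comp h1

end Rep

section Counting

variable {Ω : Type v} [MeasurableSpace Ω] {P : Measure Ω}

/-- Double counting: if every point lies in at most `K + L * 1_R` of the sets. -/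
lemma sum_real_le [IsProbabilityMeasure P] {ι : Type*} (F : Finset ι) (S : ι → Set Ω)
    (hS : ∀ i ∈ F, MeasurableSet (S i)) (R : Set Ω) (hR : MeasurableSet R) (K L : ℝ)
    (h : ∀ r, ∑ i ∈ F, (S i).indicator (fun _ => (1 : ℝ)) r ≤ K + L * R.indicator (fun _ => (1 : ℝ)) r) :
    ∑ i ∈ F, P.real (S i) ≤ K + L * P.real R := by
  have hint : ∀ i ∈ F, Integrable ((S i).indicator (fun _ => (1 : ℝ))) P := fun i hi =>
    (integrable_const 1).indicator (hS i hi)
  have e1 : ∑ i ∈ F, P.real (S i) = ∫ r, ∑ i ∈ F, (S i).indicator (fun _ => (1 : ℝ)) r ∂P := by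
    rw [integral_finsetSum _ hint]
    refine Finset.sum_congr rfl fun i hi => ?_
    rw [integral_indicator_const _ (hS i hi)]
    simp
  have e2 : K + L * P.real R = ∫ r, (K + L * R.indicator (fun _ => (1 : ℝ)) r) ∂P := by
    rw [integral_add (integrable_const _) (((integrable_const (1 : ℝ)).indicator hR).const_mul L),
      integral_const_mul, integral_indicator_const _ hR]
    simp
  rw [e1, e2]
  exact integral_mono (integrable_finsetSum _ hint)
    ((integrable_const _).add (((integrable_const (1 : ℝ)).indicator hR).const_mul L)) h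

variable {G : Type*} [Fintype G] [DecidableEq G]

lemma card_color_eq (Q : ℕ) (g : G) :
    ((Finset.univ.filter fun c : G → Fin (Q + 1) => c g = 0).card : ℝ) * (Q + 1) =
      Fintype.card (G → Fin (Q + 1)) := by
  have h1 : (Finset.univ.filter fun c : G → Fin (Q + 1) => c g = 0) =
      Fintype.piFinset (fun g' => if g' = g then {0} else Finset.univ) := by
    ext c
    simp only [Finset.mem_filter, Finset.mem_univ, true_and, Fintype.mem_piFinset]
    constructor
    · intro h g'
      by_cases hg : g' = g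
      · subst hg; simp [h]
      · simp [hg]
    · intro h
      have := h g
      simpa using this
  have h2 : (Finset.univ.filter fun c : G → Fin (Q + 1) => c g = 0).card * (Q + 1) =
      Fintype.card (G → Fin (Q + 1)) := by
    rw [h1, Fintype.card_piFinset, Fintype.card_fun, Fintype.card_fin]
    rw [← Finset.prod_erase_mul _ _ (Finset.mem_univ g)]
    have h3 : ∏ x ∈ Finset.univ.erase g, (if x = g then ({0} : Finset (Fin (Q + 1))) else Finset.univ).card
        = ∏ x ∈ (Finset.univ : Finset G).erase g, (Q + 1) := by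
      refine Finset.prod_congr rfl fun x hx => ?_
      rw [if_neg (Finset.ne_of_mem_erase hx)]
      simp
    rw [h3, Finset.prod_const, Finset.card_erase_of_mem (Finset.mem_univ g)]
    simp only [if_true, Finset.card_singleton, mul_one, Finset.card_univ]
    have hpos : 0 < Fintype.card G := Fintype.card_pos_iff.mpr ⟨g⟩
    rw [← pow_succ, Nat.sub_add_cancel hpos]
  exact_mod_cast h2

lemma card_color_avoid (Q : ℕ) (T : Finset G) (M : ℕ) (hM : M ≤ T.card) :
    ((Finset.univ.filter fun c : G → Fin (Q + 1) => ∀ g ∈ T, c g ≠ 0).card : ℝ) ≤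
      Fintype.card (G → Fin (Q + 1)) * ((Q : ℝ) / (Q + 1)) ^ M := by
  have h1 : (Finset.univ.filter fun c : G → Fin (Q + 1) => ∀ g ∈ T, c g ≠ 0) =
      Fintype.piFinset (fun g' => if g' ∈ T then Finset.univ.erase 0 else Finset.univ) := by
    ext c
    simp only [Finset.mem_filter, Finset.mem_univ, true_and, Fintype.mem_piFinset]
    constructor
    · intro h g'
      by_cases hg : g' ∈ T
      · simp [hg, h g' hg]
      · simp [hg]
    · intro h g hg
      have := h g
      simpa [hg] using this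
  have h2 : ((Finset.univ.filter fun c : G → Fin (Q + 1) => ∀ g ∈ T, c g ≠ 0).card : ℝ) =
      (Q : ℝ) ^ T.card * (Q + 1 : ℝ) ^ (Fintype.card G - T.card) := by
    rw [h1, Fintype.card_piFinset]
    push_cast
    have : ∀ g : G, (((if g ∈ T then Finset.univ.erase (0 : Fin (Q + 1)) else Finset.univ).card : ℕ) : ℝ)
        = if g ∈ T then (Q : ℝ) else (Q + 1 : ℝ) := by
      intro g
      split_ifs <;> simp
    simp only [this]
    rw [Finset.prod_ite]
    simp only [Finset.prod_const]
    congr 2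
    · congr 1
      ext g; simp
    · have : (Finset.univ.filter fun g => g ∉ T) = Tᶜ := by ext g; simp
      rw [this, Finset.card_compl]
  rw [h2, Fintype.card_fun, Fintype.card_fin]
  have hle : T.card ≤ Fintype.card G := Finset.card_le_univ T
  have hQ : (0 : ℝ) < Q + 1 := by positivity
  have h3 : (Q : ℝ) ^ T.card * (Q + 1 : ℝ) ^ (Fintype.card G - T.card) =
      (Q + 1 : ℝ) ^ Fintype.card G * ((Q : ℝ) / (Q + 1)) ^ T.card := by
    rw [div_pow]
    obtain ⟨d, hd⟩ := Nat.exists_eq_add_of_le hle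
    rw [hd, Nat.add_sub_cancel_left, pow_add]
    field_simp
  rw [h3]
  push_cast
  have hr0 : (0 : ℝ) ≤ (Q : ℝ) / (Q + 1) := by positivity
  have hr1 : (Q : ℝ) / (Q + 1) ≤ 1 := by
    rw [div_le_one hQ]; linarith
  exact mul_le_mul_of_nonneg_left (pow_le_pow_of_le_one hr0 hr1 hM) (by positivity)

end Counting

end Pool.Agent.Hhelper78.MP955413
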